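import Pool.Agent.helper47.SC.Spec

/-! Row sc:CMP (MP_0015b7): the Levi form of a composition with a holomorphic map. -/

set_option autoImplicit false

open scoped Topology ContDiff
open Set Filter Metric MeasureTheory
open Pool.Agent.helper90.KMMP (levi hess levi_eq_deriv levi_curve)

namespace Pool.Agent.SC

theorem CMP : CMP_stmt := by
  intro E F _ _ _ _ _ _ u f x hu hf v
  have hc : ContDiffAt ℝ 2 (fun y => u (f y)) x := hu.comp x (hf.restrict_scalars ℝ)
  rw [levi_eq_deriv hc]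
  have hline : ContDiffAt ℂ 2 (fun ζ : ℂ => x + ζ • v) 0 := by fun_prop
  have hκ2 : ContDiffAt ℂ 2 (fun ζ : ℂ => f (x + ζ • v)) 0 := by
    have hf' : ContDiffAt ℂ 2 f (x + (0 : ℂ) • v) := by simpa using hf
    exact ContDiffAt.comp (0 : ℂ) hf' hline
  have hκ : AnalyticAt ℂ (fun ζ : ℂ => f (x + ζ • v)) 0 := by
    rw [Complex.analyticAt_iff_eventually_differentiableAt]
    filter_upwards [hκ2.eventually (by simp)] with ζ hζ
    exact hζ.differentiableAt (by norm_num)
  have h1 := levi_curve (u := u) (κ := fun ζ : ℂ => f (x + ζ • v)) (by simpa using hu) hκ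
  rw [h1]
  have h2 : deriv (fun ζ : ℂ => f (x + ζ • v)) 0 = fderiv ℂ f x v := by
    have h3 : HasDerivAt (fun ζ : ℂ => x + ζ • v) ((1 : ℂ) • v) 0 :=
      ((hasDerivAt_id (0 : ℂ)).smul_const v).const_add x
    have h4 : HasFDerivAt f (fderiv ℂ f x) (x + (0 : ℂ) • v) := by
      simpa using (hf.differentiableAt (by norm_num)).hasFDerivAt
    have h5 : HasDerivAt (fun ζ : ℂ => f (x + ζ • v)) (fderiv ℂ f x ((1 : ℂ) • v)) 0 :=
      h4.comp_hasDerivAt (0 : ℂ) h3
    simpa using h5.deriv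
  rw [h2]
  simp

end Pool.Agent.SC
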